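import Mathlib
import Pool.Agent.Helper9.LimInf

/-!
# Primes `n ^ 2 + s ^ 2`, `1 ≤ s < n`, against `π (n)`

With `a (n) = #{s ∈ {1, ..., n - 1} : n ^ 2 + s ^ 2 is prime}` the four statements of the question do
not all hold; in fact for every `c > 0` there are infinitely many `n` with `a (n) < c π (n)`.
-/

open Finset

namespace Pool.Agent.Results.MP_1ac310_nt.Full

theorem result :
    ¬ ((∀ n : ℕ, 1 < n →
        5 * ((Ico 1 n).filter fun s => (n ^ 2 + s ^ 2).Prime).card ≥ Nat.primeCounting n) ∧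
      Nat.primeCounting 2 = ((Ico 1 2).filter fun s => (2 ^ 2 + s ^ 2).Prime).card ∧
      Nat.primeCounting 10 = ((Ico 1 10).filter fun s => (10 ^ 2 + s ^ 2).Prime).card ∧
      5 * ((Ico 1 12).filter fun s => (12 ^ 2 + s ^ 2).Prime).card = Nat.primeCounting 12) ∧
    ∀ c : ℝ, 0 < c → ∀ N : ℕ, ∃ n : ℕ, N < n ∧
      (((Ico 1 n).filter fun s => (n ^ 2 + s ^ 2).Prime).card : ℝ) <
        c * (Nat.primeCounting n : ℝ) := by
  have ha : ∀ n : ℕ, ((Ico 1 n).filter fun s => (n ^ 2 + s ^ 2).Prime).card = N8bd1f7c7.a n := by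
    intro n
    unfold N8bd1f7c7.a
    rw [Finset.card_filter]
  constructor
  · rintro ⟨h, -⟩
    obtain ⟨n, -, h1, h2⟩ := Helper9.LimInf.exists_small 5 0 (by norm_num)
    have h3 := h n h1
    rw [ha] at h3
    omega
  · intro c hc N
    obtain ⟨K, hK⟩ := exists_nat_gt (1 / c)
    have hc0 : 0 < 1 / c := by positivity
    have hK0 : (0 : ℝ) < K := hc0.trans hK
    have hK1 : 1 ≤ K := by exact_mod_cast hK0
    obtain ⟨n, h0, -, h2⟩ := Helper9.LimInf.exists_small K N hK1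
    refine ⟨n, h0, ?_⟩
    rw [ha]
    have h3 : (K : ℝ) * (N8bd1f7c7.a n : ℝ) < (Nat.primeCounting n : ℝ) := by exact_mod_cast h2
    have h4 : 1 < c * K := by
      rw [div_lt_iff₀ hc] at hK
      linarith
    have h5 : c * ((K : ℝ) * (N8bd1f7c7.a n : ℝ)) < c * (Nat.primeCounting n : ℝ) :=
      mul_lt_mul_of_pos_left h3 hc
    have h6 : (0 : ℝ) ≤ (N8bd1f7c7.a n : ℝ) := Nat.cast_nonneg _
    nlinarith

end Pool.Agent.Results.MP_1ac310_nt.Full
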